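import Mathlib
import Pool.Agent.Helper6.SW.Defs
import Pool.Agent.Helper34.ER.Bilin

/-!
# BV-3: type I sums by Abel summation
-/

set_option autoImplicit false

namespace Pool.Agent.Helper13.SW

open Finset Pool.Agent.Helper6.SW

/-- Abel summation with bounded interval sums -/
lemma abel (c : ℕ → ℂ) (B : ℝ) (m0 : ℕ) (hc : ∀ m, ‖∑ j ∈ Icc m0 m, c j‖ ≤ B) (g : ℕ → ℝ)
    (M : ℕ) (hM : m0 ≤ M) :
    ‖∑ m ∈ Icc m0 M, c m * ((g m : ℝ) : ℂ) - (∑ m ∈ Icc m0 M, c m) * ((g M : ℝ) : ℂ)‖ ≤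
      B * ∑ m ∈ Ico m0 M, |g (m + 1) - g m| := by
  induction M, hM using Nat.le_induction with
  | base => simp
  | succ M hM ih =>
    have e1 : ∀ f : ℕ → ℂ, ∑ m ∈ Icc m0 (M + 1), f m = ∑ m ∈ Icc m0 M, f m + f (M + 1) := by
      intro f
      rw [Finset.sum_Icc_succ_top (by omega)]
    have e2 : ∑ m ∈ Ico m0 (M + 1), |g (m + 1) - g m| =
        ∑ m ∈ Ico m0 M, |g (m + 1) - g m| + |g (M + 1) - g M| :=
      Finset.sum_Ico_succ_top hM _
    rw [e1, e1, e2]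
    have e3 : ∑ m ∈ Icc m0 M, c m * ((g m : ℝ) : ℂ) + c (M + 1) * ((g (M + 1) : ℝ) : ℂ) -
        (∑ m ∈ Icc m0 M, c m + c (M + 1)) * ((g (M + 1) : ℝ) : ℂ) =
        (∑ m ∈ Icc m0 M, c m * ((g m : ℝ) : ℂ) - (∑ m ∈ Icc m0 M, c m) * ((g M : ℝ) : ℂ)) -
        (∑ m ∈ Icc m0 M, c m) * (((g (M + 1) - g M : ℝ)) : ℂ) := by
      push_cast; ring
    rw [e3, mul_add]
    refine (norm_sub_le _ _).trans (add_le_add ih ?_)
    rw [norm_mul, Complex.norm_real, Real.norm_eq_abs]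
    exact mul_le_mul_of_nonneg_right (hc M) (abs_nonneg _)

/-- the main bound -/
lemma abel_bound (c : ℕ → ℂ) (B : ℝ) (hB : 0 ≤ B) (m0 M : ℕ) (hm0 : 1 ≤ m0)
    (hc : ∀ m, ‖∑ j ∈ Icc m0 m, c j‖ ≤ B) (a t l : ℕ → ℝ)
    (ha : ∀ m, m0 ≤ m → 0 ≤ a m) (ha2 : ∀ m, m0 ≤ m → a (m + 1) ≤ a m)
    (ht : ∀ m, 0 ≤ t m) (ht1 : ∀ m, t m ≤ 1) (ht0 : ∀ m, 1 ≤ m → m < m0 → t m = 0)
    (hl : ∀ m, m0 ≤ m → |t (m + 1) - t m| ≤ l (m + 1) - l m)
    (hl2 : m0 ≤ M → l M - l m0 ≤ 2) (D : ℝ) (hD0 : 0 ≤ D) (hD : m0 ≤ M → a m0 ≤ D) :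
    ‖∑ m ∈ Icc 1 M, c m * ((a m * t m : ℝ) : ℂ)‖ ≤ B * (3 * D) := by
  by_cases hM : m0 ≤ M
  swap
  · have : ∑ m ∈ Icc 1 M, c m * ((a m * t m : ℝ) : ℂ) = 0 := by
      refine sum_eq_zero fun m hm => ?_
      rw [mem_Icc] at hm
      rw [ht0 m hm.1 (by omega), mul_zero]; simp
    rw [this, norm_zero]
    positivity
  have e0 : ∑ m ∈ Icc 1 M, c m * ((a m * t m : ℝ) : ℂ) =
      ∑ m ∈ Icc m0 M, c m * ((a m * t m : ℝ) : ℂ) := by
    symm
    apply sum_subset (Icc_subset_Icc_left hm0)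
    intro m hm hm'
    rw [mem_Icc] at hm hm'
    rw [ht0 m hm.1 (by omega), mul_zero]; simp
  rw [e0]
  have h1 := abel c B m0 hc (fun m => a m * t m) M hM
  have hanti : ∀ m, m0 ≤ m → a m ≤ a m0 := by
    intro m hm
    induction m, hm using Nat.le_induction with
    | base => exact le_rfl
    | succ m hm ih => exact (ha2 m hm).trans ih
  have h2 : ∑ m ∈ Ico m0 M, |a (m + 1) * t (m + 1) - a m * t m| ≤
      ∑ m ∈ Ico m0 M, (a m0 * (l (m + 1) - l m) + (a m - a (m + 1))) := by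
    refine sum_le_sum fun m hm => ?_
    rw [mem_Ico] at hm
    have e : a (m + 1) * t (m + 1) - a m * t m =
        a (m + 1) * (t (m + 1) - t m) - t m * (a m - a (m + 1)) := by ring
    rw [e]
    refine (abs_sub _ _).trans ?_
    rw [abs_mul, abs_mul, abs_of_nonneg (ha (m + 1) (by omega)), abs_of_nonneg (ht m),
      abs_of_nonneg (sub_nonneg.mpr (ha2 m hm.1))]
    apply add_le_add
    · exact mul_le_mul (hanti (m + 1) (by omega)) (hl m hm.1) (abs_nonneg _) (ha m0 le_rfl)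
    · exact mul_le_of_le_one_left (sub_nonneg.mpr (ha2 m hm.1)) (ht1 m)
  have h3 : ∑ m ∈ Ico m0 M, (a m0 * (l (m + 1) - l m) + (a m - a (m + 1))) =
      a m0 * (l M - l m0) + (a m0 - a M) := by
    rw [sum_add_distrib, ← mul_sum, Finset.sum_Ico_sub l hM]
    have : ∑ m ∈ Ico m0 M, (a m - a (m + 1)) = a m0 - a M := by
      have h := Finset.sum_Ico_sub (fun m => - a m) hM
      have h' : ∀ m ∈ Ico m0 M, a m - a (m + 1) = - a (m + 1) - (- a m) := by
        intro m _; ring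
      rw [sum_congr rfl h', h]; ring
    rw [this]
  have hl2' := hl2 hM
  have h4 : ‖(∑ m ∈ Icc m0 M, c m) * ((a M * t M : ℝ) : ℂ)‖ ≤ B * a M := by
    rw [norm_mul, Complex.norm_real, Real.norm_eq_abs,
      abs_of_nonneg (mul_nonneg (ha M hM) (ht M))]
    apply mul_le_mul (hc M) _ (mul_nonneg (ha M hM) (ht M)) hB
    exact mul_le_of_le_one_right (ha M hM) (ht1 M)
  have ha0 := ha m0 le_rfl
  have h5 : a m0 * (l M - l m0) ≤ a m0 * 2 := mul_le_mul_of_nonneg_left hl2' ha0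
  have h6 : ∑ m ∈ Ico m0 M, |a (m + 1) * t (m + 1) - a m * t m| ≤ 3 * a m0 - a M := by
    linarith
  have h7 : ‖∑ m ∈ Icc m0 M, c m * ((a m * t m : ℝ) : ℂ)‖ ≤ B * (3 * a m0 - a M) + B * a M := by
    have e := norm_add_le (∑ m ∈ Icc m0 M, c m * ((a m * t m : ℝ) : ℂ) -
      (∑ m ∈ Icc m0 M, c m) * ((a M * t M : ℝ) : ℂ)) ((∑ m ∈ Icc m0 M, c m) *
        ((a M * t M : ℝ) : ℂ))
    rw [sub_add_cancel] at e
    refine e.trans (add_le_add (h1.trans ?_) h4)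
    exact mul_le_mul_of_nonneg_left h6 hB
  refine h7.trans ?_
  have : B * (3 * a m0 - a M) + B * a M = B * (3 * a m0) := by ring
  rw [this]
  exact mul_le_mul_of_nonneg_left (by linarith [hD hM]) hB

lemma tent_nonneg (V v : ℝ) : 0 ≤ tent V v := le_max_left _ _

lemma tent_le_one {V : ℝ} (hV : 0 < V) (v : ℝ) : tent V v ≤ 1 := by
  apply max_le zero_le_one
  have : 0 ≤ |v| / V := by positivity
  linarith

lemma tent_zero {V : ℝ} (hV : 0 < V) {v : ℝ} (hv : V ≤ |v|) : tent V v = 0 := by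
  apply max_eq_left
  have : 1 ≤ |v| / V := (one_le_div hV).mpr hv
  linarith

lemma tent_lip {V : ℝ} (hV : 0 < V) (u v : ℝ) : |tent V u - tent V v| ≤ |u - v| / V := by
  have h1 : |tent V u - tent V v| ≤ |(1 - |u| / V) - (1 - |v| / V)| := by
    unfold tent
    simpa using abs_max_sub_max_le_max 0 (1 - |u| / V) 0 (1 - |v| / V)
  refine h1.trans ?_
  have e : (1 - |u| / V) - (1 - |v| / V) = (|v| - |u|) / V := by ring
  rw [e, abs_div, abs_of_pos hV]
  apply div_le_div_of_nonneg_right _ hV.le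
  rw [abs_sub_comm u v]
  exact abs_abs_sub_abs_le_abs_sub v u

/-- `log x / x^α` is antitone -/
lemma w_anti {α : ℝ} (hα : 0 < α) {x y : ℝ} (hx : Real.exp α⁻¹ ≤ x) (hxy : x ≤ y) :
    Real.log y / y ^ α ≤ Real.log x / x ^ α :=
  Real.log_div_self_rpow_antitoneOn hα hx (hx.trans hxy) hxy

theorem stTypeI : StTypeI := by
  intro V k hV
  refine ⟨3 * (2 ^ (k + 1) * Real.exp V), Real.exp (2 * (V + k + 2)), by positivity, ?_⟩
  intro X hX N _ χ hχ b hb hbX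
  have hk0 : (0 : ℝ) ≤ (k : ℝ) := Nat.cast_nonneg k
  have hXpos : 0 < X := lt_of_lt_of_le (Real.exp_pos _) hX
  have hlogX : 2 * (V + k + 2) ≤ Real.log X := by
    rw [Real.le_log_iff_exp_le hXpos]; exact hX
  have hlogX0 : 0 < Real.log X := by linarith
  have hX1 : 1 < X := by
    by_contra h
    have := Real.log_nonpos hXpos.le (not_lt.mp h)
    linarith
  set ε : ℝ := 1 / Real.log X with hε
  have hε0 : 0 < ε := by positivity
  set α : ℝ := 1 / ((k : ℝ) + 1) with hα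
  have hα0 : 0 < α := by positivity
  have hαinv : α⁻¹ = k + 1 := by rw [hα, one_div, inv_inv]
  have hαk : α * k + α = 1 := by rw [hα]; field_simp
  set s : ℝ := X ^ (1 / 2 : ℝ) with hs
  have hs0 : 0 < s := Real.rpow_pos_of_pos hXpos _
  have hss : s * s = X := by
    rw [hs, ← Real.rpow_add hXpos]; norm_num
  have hs_exp : Real.exp (V + k + 2) ≤ s := by
    rw [hs, Real.rpow_def_of_pos hXpos]
    apply Real.exp_le_exp.mpr
    linarith
  have hs1 : 1 ≤ s := (Real.one_le_exp (by linarith)).trans hs_exp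
  have hb0 : (0 : ℝ) < b := by exact_mod_cast (by omega : 0 < b)
  have hb1 : (1 : ℝ) ≤ b := by exact_mod_cast hb
  set lo : ℝ := Real.exp (-V) * X with hlo
  have hlo0 : 0 < lo := by positivity
  set m0 : ℕ := ⌈lo / b⌉₊ with hm0
  have hm01 : 1 ≤ m0 := Nat.one_le_iff_ne_zero.mpr (by
    rw [hm0]; exact (Nat.ceil_pos.mpr (by positivity)).ne')
  set M : ℕ := NX V X / b with hM
  have F1 : ∀ m : ℕ, m0 ≤ m → lo ≤ (b : ℝ) * m := by
    intro m hm
    have h1 : lo / b ≤ m := (Nat.le_ceil _).trans (by exact_mod_cast hm)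
    rw [div_le_iff₀ hb0] at h1
    linarith
  have F2 : ∀ m : ℕ, m < m0 → (b : ℝ) * m < lo := by
    intro m hm
    have h1 : (m : ℝ) < lo / b := Nat.lt_ceil.mp hm
    rw [lt_div_iff₀ hb0] at h1
    linarith
  have hlos : Real.exp (k + 2) ≤ lo / b := by
    rw [le_div_iff₀ hb0]
    calc Real.exp (k + 2) * b ≤ Real.exp (k + 2) * s :=
          mul_le_mul_of_nonneg_left hbX (Real.exp_pos _).le
      _ = Real.exp (-V) * (Real.exp (V + k + 2) * s) := by
          rw [← mul_assoc, ← Real.exp_add]; congr 2; ring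
      _ ≤ Real.exp (-V) * (s * s) := by gcongr
      _ = lo := by rw [hss]
  have F5 : ∀ m : ℕ, m0 ≤ m → Real.exp α⁻¹ ≤ m := by
    intro m hm
    rw [hαinv]
    calc Real.exp ((k : ℝ) + 1) ≤ Real.exp (k + 2) := Real.exp_le_exp.mpr (by linarith)
      _ ≤ lo / b := hlos
      _ ≤ m := (Nat.le_ceil _).trans (by exact_mod_cast hm)
  have F6 : ∀ m : ℕ, m0 ≤ m → Real.exp α⁻¹ ≤ (b : ℝ) * m := by
    intro m hm
    have h1 := F5 m hm
    have h2 : (0 : ℝ) ≤ m := Nat.cast_nonneg m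
    nlinarith
  have hm1 : ∀ m : ℕ, m0 ≤ m → (1 : ℝ) ≤ m := by
    intro m hm
    exact_mod_cast (hm01.trans hm)
  have hbm1 : ∀ m : ℕ, 1 ≤ m → (1 : ℝ) ≤ (b : ℝ) * m := by
    intro m hm
    have : (1 : ℝ) ≤ m := by exact_mod_cast hm
    nlinarith
  -- the character sums
  have hN2 : 2 ≤ N := by
    by_contra h
    have hN0 : N ≠ 0 := NeZero.ne N
    have hN1 : N = 1 := by omega
    subst hN1
    exact hχ (DirichletCharacter.level_one χ)
  let c : ℕ → ℂ := fun m => χ ((b : ℕ) : ZMod N) * χ ((m : ℕ) : ZMod N)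
  have hc : ∀ m, ‖∑ j ∈ Icc m0 m, c j‖ ≤ (N : ℝ) := by
    intro m
    show ‖∑ j ∈ Icc m0 m, χ ((b : ℕ) : ZMod N) * χ ((j : ℕ) : ZMod N)‖ ≤ (N : ℝ)
    rw [← mul_sum, norm_mul]
    have h1 : ‖∑ j ∈ Icc m0 m, χ ((j : ℕ) : ZMod N)‖ ≤ (N : ℝ) := by
      have e : Icc m0 m = Ioc (m0 - 1) m := by
        ext j; rw [mem_Icc, mem_Ioc]; omega
      rw [e]
      exact Pool.Agent.Helper6.ER.interval_char_sum N hN2 χ hχ _ _
    calc ‖χ ((b : ℕ) : ZMod N)‖ * ‖∑ j ∈ Icc m0 m, χ ((j : ℕ) : ZMod N)‖ ≤ 1 * N :=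
          mul_le_mul (DirichletCharacter.norm_le_one _ _) h1 (norm_nonneg _) zero_le_one
      _ = N := one_mul _
  -- the functions
  let t : ℕ → ℝ := fun m => tent V (Real.log ((b : ℝ) * m) - Real.log X)
  let l : ℕ → ℝ := fun m => Real.log ((b : ℝ) * m) / V
  let a2 : ℕ → ℝ := fun m => (Real.log ((b : ℝ) * m)) ^ k * ((b : ℝ) * m) ^ (-(1 + ε))
  let a1 : ℕ → ℝ := fun m => Real.log m * a2 m
  have hlogbm : ∀ m : ℕ, 1 ≤ m → 0 ≤ Real.log ((b : ℝ) * m) := fun m hm =>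
    Real.log_nonneg (hbm1 m hm)
  have ht : ∀ m, 0 ≤ t m := fun m => tent_nonneg _ _
  have ht1 : ∀ m, t m ≤ 1 := fun m => tent_le_one hV _
  have ht0 : ∀ m, 1 ≤ m → m < m0 → t m = 0 := by
    intro m hm hmm
    apply tent_zero hV
    have h1 := F2 m hmm
    have h2 : Real.log ((b : ℝ) * m) < Real.log lo :=
      Real.log_lt_log (by linarith [hbm1 m hm]) h1
    have h3 : Real.log lo = -V + Real.log X := by
      rw [hlo, Real.log_mul (Real.exp_pos _).ne' hXpos.ne', Real.log_exp]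
    have h4 : Real.log ((b : ℝ) * m) - Real.log X ≤ -V := by linarith
    rw [abs_of_nonpos (by linarith)]
    linarith
  have hl : ∀ m, m0 ≤ m → |t (m + 1) - t m| ≤ l (m + 1) - l m := by
    intro m hm
    have h1 := tent_lip hV (Real.log ((b : ℝ) * (m + 1 : ℕ)) - Real.log X)
      (Real.log ((b : ℝ) * m) - Real.log X)
    refine h1.trans (le_of_eq ?_)
    have h2 : Real.log ((b : ℝ) * m) ≤ Real.log ((b : ℝ) * (m + 1 : ℕ)) := by
      apply Real.log_le_log (by linarith [hbm1 m (by omega)])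
      push_cast
      nlinarith
    rw [abs_of_nonneg (by linarith)]
    show _ = Real.log ((b : ℝ) * (m + 1 : ℕ)) / V - Real.log ((b : ℝ) * m) / V
    ring
  have hl2 : m0 ≤ M → l M - l m0 ≤ 2 := by
    intro hmM
    have h1 : Real.log lo ≤ Real.log ((b : ℝ) * m0) := Real.log_le_log hlo0 (F1 m0 le_rfl)
    have h3 : Real.log lo = -V + Real.log X := by
      rw [hlo, Real.log_mul (Real.exp_pos _).ne' hXpos.ne', Real.log_exp]
    have h4 : (b : ℝ) * M ≤ Real.exp V * X := by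
      have h5 : b * M ≤ NX V X := Nat.mul_div_le _ _
      have h6 : ((b * M : ℕ) : ℝ) ≤ NX V X := by exact_mod_cast h5
      have h7 : ((NX V X : ℕ) : ℝ) ≤ Real.exp V * X := Nat.floor_le (by positivity)
      push_cast at h6
      linarith
    have h5 : Real.log ((b : ℝ) * M) ≤ V + Real.log X := by
      have : Real.log (Real.exp V * X) = V + Real.log X := by
        rw [Real.log_mul (Real.exp_pos _).ne' hXpos.ne', Real.log_exp]
      rw [← this]
      exact Real.log_le_log (by linarith [hbm1 M (by omega)]) h4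
    show Real.log ((b : ℝ) * M) / V - Real.log ((b : ℝ) * m0) / V ≤ 2
    rw [← sub_div, div_le_iff₀ hV]
    linarith
  -- decompositions
  have hpw : ∀ x : ℝ, 0 < x → x ^ (-(1 + ε)) = (x ^ α)⁻¹ ^ k * (x ^ α)⁻¹ * x ^ (-ε) := by
    intro x hx
    have e1 : (x ^ α)⁻¹ = x ^ (-α) := by rw [Real.rpow_neg hx.le]
    rw [e1, ← Real.rpow_natCast, ← Real.rpow_mul hx.le, ← Real.rpow_add hx, ← Real.rpow_add hx]
    congr 1
    linarith
  have hw2nn : ∀ m : ℕ, 1 ≤ m → 0 ≤ Real.log ((b : ℝ) * m) / ((b : ℝ) * m) ^ α := by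
    intro m hm
    have := hlogbm m hm
    have : 0 ≤ (b : ℝ) * m := by positivity
    positivity
  have ha2eq : ∀ m : ℕ, 1 ≤ m → a2 m = (Real.log ((b : ℝ) * m) / ((b : ℝ) * m) ^ α) ^ k *
      ((((b : ℝ) * m) ^ α)⁻¹ * ((b : ℝ) * m) ^ (-ε)) := by
    intro m hm
    show (Real.log ((b : ℝ) * m)) ^ k * ((b : ℝ) * m) ^ (-(1 + ε)) = _
    rw [hpw _ (by linarith [hbm1 m hm]), div_eq_mul_inv, mul_pow]
    ring
  have ha1eq : ∀ m : ℕ, 1 ≤ m → a1 m = (Real.log ((b : ℝ) * m) / ((b : ℝ) * m) ^ α) ^ k *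
      ((Real.log m / (m : ℝ) ^ α) * (((b : ℝ) ^ α)⁻¹ * ((b : ℝ) * m) ^ (-ε))) := by
    intro m hm
    show Real.log m * a2 m = _
    rw [ha2eq m hm, Real.mul_rpow hb0.le (Nat.cast_nonneg m), mul_inv]
    ring
  have hmono : ∀ m : ℕ, m0 ≤ m → (b : ℝ) * m ≤ (b : ℝ) * (m + 1 : ℕ) := by
    intro m _
    push_cast
    nlinarith
  have hw2a : ∀ m : ℕ, m0 ≤ m → (Real.log ((b : ℝ) * (m + 1 : ℕ)) /
      ((b : ℝ) * (m + 1 : ℕ)) ^ α) ^ k ≤ (Real.log ((b : ℝ) * m) / ((b : ℝ) * m) ^ α) ^ k := by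
    intro m hm
    exact pow_le_pow_left₀ (hw2nn (m + 1) (by omega)) (w_anti hα0 (F6 m hm) (hmono m hm)) k
  have hεa : ∀ m : ℕ, m0 ≤ m → ((b : ℝ) * (m + 1 : ℕ)) ^ (-ε) ≤ ((b : ℝ) * m) ^ (-ε) := by
    intro m hm
    exact Real.rpow_le_rpow_of_nonpos (by linarith [hbm1 m (by omega)]) (hmono m hm)
      (by linarith)
  have hαa : ∀ m : ℕ, m0 ≤ m → (((b : ℝ) * (m + 1 : ℕ)) ^ α)⁻¹ ≤ (((b : ℝ) * m) ^ α)⁻¹ := by
    intro m hm
    have h0 : 0 < (b : ℝ) * m := by linarith [hbm1 m (by omega)]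
    exact inv_anti₀ (Real.rpow_pos_of_pos h0 _) (Real.rpow_le_rpow h0.le (hmono m hm) hα0.le)
  have hbmpos : ∀ m : ℕ, 1 ≤ m → 0 < (b : ℝ) * m := fun m hm => by linarith [hbm1 m hm]
  have ha2nn : ∀ m, m0 ≤ m → 0 ≤ a2 m := by
    intro m hm
    have h1 := hlogbm m (by omega)
    have h2 := hbmpos m (by omega)
    show 0 ≤ (Real.log ((b : ℝ) * m)) ^ k * ((b : ℝ) * m) ^ (-(1 + ε))
    positivity
  have ha1nn : ∀ m, m0 ≤ m → 0 ≤ a1 m := fun m hm =>
    mul_nonneg (Real.log_nonneg (hm1 m hm)) (ha2nn m hm)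
  have ha2a : ∀ m, m0 ≤ m → a2 (m + 1) ≤ a2 m := by
    intro m hm
    rw [ha2eq m (by omega), ha2eq (m + 1) (by omega)]
    have h2 := hbmpos m (by omega)
    have h3 := hbmpos (m + 1) (by omega)
    apply mul_le_mul (hw2a m hm) _ (by positivity) (pow_nonneg (hw2nn m (by omega)) k)
    exact mul_le_mul (hαa m hm) (hεa m hm) (by positivity) (by positivity)
  have ha1a : ∀ m, m0 ≤ m → a1 (m + 1) ≤ a1 m := by
    intro m hm
    rw [ha1eq m (by omega), ha1eq (m + 1) (by omega)]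
    have h2 := hbmpos m (by omega)
    have h3 := hbmpos (m + 1) (by omega)
    have h4 : Real.log (m + 1 : ℕ) / ((m + 1 : ℕ) : ℝ) ^ α ≤ Real.log m / (m : ℝ) ^ α :=
      w_anti hα0 (F5 m hm) (by push_cast; linarith)
    have h5 : 0 ≤ Real.log (m + 1 : ℕ) / ((m + 1 : ℕ) : ℝ) ^ α :=
      div_nonneg (Real.log_nonneg (hm1 (m + 1) (by omega))) (by positivity)
    have h6 : 0 ≤ Real.log m / (m : ℝ) ^ α :=
      div_nonneg (Real.log_nonneg (hm1 m hm)) (by positivity)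
    apply mul_le_mul (hw2a m hm) _ (mul_nonneg h5 (by positivity))
      (pow_nonneg (hw2nn m (by omega)) k)
    apply mul_le_mul h4 _ (by positivity) h6
    exact mul_le_mul_of_nonneg_left (hεa m hm) (by positivity)
  -- bounds at m0
  have hbm0 : (b : ℝ) * m0 ≤ X ^ 2 := by
    have h1 : ((m0 : ℕ) : ℝ) < lo / b + 1 := Nat.ceil_lt_add_one (by positivity)
    have h2 : (b : ℝ) * m0 ≤ lo + b := by
      have : (b : ℝ) * m0 ≤ b * (lo / b + 1) := mul_le_mul_of_nonneg_left h1.le hb0.le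
      have e : (b : ℝ) * (lo / b + 1) = lo + b := by field_simp
      linarith
    have h3 : lo ≤ X := by
      have : Real.exp (-V) ≤ 1 := Real.exp_le_one_iff.mpr (by linarith)
      rw [hlo]; nlinarith
    have h4 : (b : ℝ) ≤ X := by nlinarith
    have h5 : (2 : ℝ) ≤ X := by
      have := Real.add_one_le_exp (2 * (V + k + 2))
      linarith
    nlinarith
  have hlog0 : Real.log ((b : ℝ) * m0) ≤ 2 * Real.log X := by
    have h1 := Real.log_le_log (hbmpos m0 hm01) hbm0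
    rw [Real.log_pow] at h1
    push_cast at h1
    exact h1
  have hlogm0 : Real.log (m0 : ℝ) ≤ 2 * Real.log X := by
    refine le_trans (Real.log_le_log (by linarith [hm1 m0 le_rfl]) ?_) hlog0
    nlinarith [hm1 m0 le_rfl]
  have hD2 : a2 m0 ≤ (2 * Real.log X) ^ k * (Real.exp V / X) := by
    show (Real.log ((b : ℝ) * m0)) ^ k * ((b : ℝ) * m0) ^ (-(1 + ε)) ≤ _
    have h0 := hbmpos m0 hm01
    apply mul_le_mul (pow_le_pow_left₀ (hlogbm m0 hm01) hlog0 k) _ (by positivity) (by positivity)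
    calc ((b : ℝ) * m0) ^ (-(1 + ε)) ≤ ((b : ℝ) * m0) ^ (-1 : ℝ) :=
          Real.rpow_le_rpow_of_exponent_le (hbm1 m0 hm01) (by linarith)
      _ = ((b : ℝ) * m0)⁻¹ := Real.rpow_neg_one _
      _ ≤ lo⁻¹ := inv_anti₀ hlo0 (F1 m0 le_rfl)
      _ = Real.exp V / X := by
          rw [hlo, mul_inv, ← Real.exp_neg, neg_neg, div_eq_mul_inv]
  have hD2' : 0 ≤ (2 * Real.log X) ^ k * (Real.exp V / X) := by positivity
  have hD1 : a1 m0 ≤ (2 * Real.log X) ^ (k + 1) * (Real.exp V / X) := by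
    show Real.log m0 * a2 m0 ≤ _
    have h1 : (0 : ℝ) ≤ Real.log m0 := Real.log_nonneg (hm1 m0 le_rfl)
    calc Real.log m0 * a2 m0 ≤ (2 * Real.log X) * ((2 * Real.log X) ^ k * (Real.exp V / X)) :=
          mul_le_mul hlogm0 hD2 (ha2nn m0 le_rfl) (by positivity)
      _ = _ := by ring
  have hN0 : (0 : ℝ) ≤ N := Nat.cast_nonneg N
  have hom : ∀ m : ℕ, om V k X (b * m) = a2 m * t m := by
    intro m
    show (Real.log ((b * m : ℕ) : ℝ)) ^ k * ((b * m : ℕ) : ℝ) ^ (-(1 + 1 / Real.log X)) *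
      tent V (Real.log ((b * m : ℕ) : ℝ) - Real.log X) = (Real.log ((b : ℝ) * m)) ^ k *
        ((b : ℝ) * m) ^ (-(1 + ε)) * tent V (Real.log ((b : ℝ) * m) - Real.log X)
    push_cast
    rfl
  constructor
  · have h1 := abel_bound c N hN0 m0 M hm01 hc a1 t l ha1nn ha1a ht ht1 ht0 hl hl2 _
      (by positivity) (fun _ => hD1)
    have e : ∑ m ∈ Icc 1 M, ((Real.log m : ℝ) : ℂ) *
        (χ ((b * m : ℕ) : ZMod N) * ((om V k X (b * m) : ℝ) : ℂ)) =
        ∑ m ∈ Icc 1 M, c m * ((a1 m * t m : ℝ) : ℂ) := by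
      refine sum_congr rfl fun m _ => ?_
      rw [hom m]
      show ((Real.log m : ℝ) : ℂ) * (χ ((b * m : ℕ) : ZMod N) * ((a2 m * t m : ℝ) : ℂ)) =
        χ ((b : ℕ) : ZMod N) * χ ((m : ℕ) : ZMod N) * ((Real.log m * a2 m * t m : ℝ) : ℂ)
      rw [Nat.cast_mul, map_mul]
      push_cast
      ring
    rw [e]
    refine h1.trans (le_of_eq ?_)
    rw [mul_pow]
    ring
  · have h1 := abel_bound c N hN0 m0 M hm01 hc a2 t l ha2nn ha2a ht ht1 ht0 hl hl2 _
      (by positivity) (fun _ => hD2)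
    have e : ∑ m ∈ Icc 1 M, χ ((b * m : ℕ) : ZMod N) * ((om V k X (b * m) : ℝ) : ℂ) =
        ∑ m ∈ Icc 1 M, c m * ((a2 m * t m : ℝ) : ℂ) := by
      refine sum_congr rfl fun m _ => ?_
      rw [hom m]
      show χ ((b * m : ℕ) : ZMod N) * ((a2 m * t m : ℝ) : ℂ) =
        χ ((b : ℕ) : ZMod N) * χ ((m : ℕ) : ZMod N) * ((a2 m * t m : ℝ) : ℂ)
      rw [Nat.cast_mul, map_mul]
    rw [e]
    refine h1.trans ?_
    have h2 : (N : ℝ) * (3 * ((2 * Real.log X) ^ k * (Real.exp V / X))) =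
        3 * (2 ^ k * Real.exp V) * N * (Real.log X) ^ k / X := by
      rw [mul_pow]; ring
    rw [h2]
    apply div_le_div_of_nonneg_right _ hXpos.le
    have h3 : (2 : ℝ) ^ k ≤ 2 ^ (k + 1) := pow_le_pow_right₀ (by norm_num) (by omega)
    gcongr

end Pool.Agent.Helper13.SW
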