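import Mathlib
import Pool.Agent.Helper6.SW.Defs

/-!
# BV-2: Vaughan's identity, summed against a function
-/

set_option autoImplicit false

namespace Pool.Agent.Helper13.SW

open Finset ArithmeticFunction

/-- truncation of an arithmetic function -/
noncomputable def tr (U : ℕ) (f : ArithmeticFunction ℝ) : ArithmeticFunction ℝ :=
  ⟨fun n => if n ≤ U then f n else 0, by simp⟩

lemma tr_apply (U : ℕ) (f : ArithmeticFunction ℝ) (n : ℕ) :
    tr U f n = if n ≤ U then f n else 0 := rfl

/-- the Möbius function, real valued -/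
noncomputable def muR : ArithmeticFunction ℝ := ((ArithmeticFunction.moebius : ArithmeticFunction ℤ) :
  ArithmeticFunction ℝ)

/-- the zeta function, real valued -/
noncomputable def zeR : ArithmeticFunction ℝ := ((ArithmeticFunction.zeta : ArithmeticFunction ℕ) :
  ArithmeticFunction ℝ)

lemma muR_apply (n : ℕ) : muR n = ((ArithmeticFunction.moebius n : ℤ) : ℝ) := rfl

lemma muR_mul_zeR : muR * zeR = 1 := by
  have := ArithmeticFunction.coe_moebius_mul_coe_zeta (R := ℝ)
  exact this

lemma zeR_apply {n : ℕ} (hn : 1 ≤ n) : zeR n = 1 := by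
  have : zeR n = ((ArithmeticFunction.zeta n : ℕ) : ℝ) := rfl
  rw [this, ArithmeticFunction.zeta_apply_ne (by omega)]
  simp

lemma sum_conv (f g : ArithmeticFunction ℝ) (N : ℕ) (h : ℕ → ℂ) :
    ∑ n ∈ Icc 1 N, (((f * g) n : ℝ) : ℂ) * h n =
      ∑ a ∈ Icc 1 N, ((f a : ℝ) : ℂ) * ∑ m ∈ Icc 1 (N / a), ((g m : ℝ) : ℂ) * h (a * m) := by
  have e1 : ∑ n ∈ Icc 1 N, (((f * g) n : ℝ) : ℂ) * h n =
      ∑ n ∈ Icc 1 N, ∑ x ∈ Icc 1 N ×ˢ Icc 1 N,
        if x.1 * x.2 = n then ((f x.1 : ℝ) : ℂ) * (((g x.2 : ℝ) : ℂ) * h (x.1 * x.2)) else 0 := by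
    refine sum_congr rfl fun n hn => ?_
    rw [mem_Icc] at hn
    rw [ArithmeticFunction.mul_apply]
    push_cast
    rw [sum_mul]
    have hd : n.divisorsAntidiagonal = (Icc 1 N ×ˢ Icc 1 N).filter (fun x => x.1 * x.2 = n) := by
      ext ⟨x, y⟩
      simp only [Nat.mem_divisorsAntidiagonal, mem_filter, mem_product, mem_Icc]
      constructor
      · rintro ⟨h1, h2⟩
        have hx : x ≠ 0 := by rintro rfl; simp at h1; omega
        have hy : y ≠ 0 := by rintro rfl; simp at h1; omega
        refine ⟨⟨⟨by omega, ?_⟩, by omega, ?_⟩, h1⟩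
        · calc x = x * 1 := (mul_one x).symm
            _ ≤ x * y := Nat.mul_le_mul_left x (by omega)
            _ = n := h1
            _ ≤ N := hn.2
        · calc y = 1 * y := (one_mul y).symm
            _ ≤ x * y := Nat.mul_le_mul_right y (by omega)
            _ = n := h1
            _ ≤ N := hn.2
      · rintro ⟨_, h1⟩
        exact ⟨h1, by omega⟩
    rw [hd, sum_filter]
    refine sum_congr rfl fun x _ => ?_
    by_cases hx : x.1 * x.2 = n
    · rw [if_pos hx, if_pos hx, hx]; ring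
    · rw [if_neg hx, if_neg hx]
  rw [e1, sum_comm, sum_product]
  refine sum_congr rfl fun a ha => ?_
  rw [mem_Icc] at ha
  rw [mul_sum]
  have hsub : Icc 1 (N / a) ⊆ Icc 1 N := Icc_subset_Icc_right (Nat.div_le_self _ _)
  rw [← sum_subset hsub]
  · refine sum_congr rfl fun m hm => ?_
    rw [mem_Icc] at hm
    have hle : a * m ≤ N := by
      have := (Nat.le_div_iff_mul_le (by omega)).mp hm.2
      linarith [mul_comm a m]
    have h1 : 1 ≤ a * m := Nat.one_le_iff_ne_zero.mpr (Nat.mul_ne_zero (by omega) (by omega))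
    rw [sum_ite_eq (Icc 1 N) (a * m) (fun _ => ((f a : ℝ) : ℂ) * (((g m : ℝ) : ℂ) * h (a * m))),
      if_pos (mem_Icc.mpr ⟨h1, hle⟩)]
  · intro m hm hm'
    rw [mem_Icc] at hm hm'
    apply sum_eq_zero
    intro n hn
    rw [mem_Icc] at hn
    rw [if_neg]
    intro h1
    apply hm'
    refine ⟨hm.1, ?_⟩
    rw [Nat.le_div_iff_mul_le (by omega), mul_comm]
    have h2 : a * m = n := h1
    omega

/-- changing the range of the outer sum -/
lemma sum_cut (U N : ℕ) (w : ℕ → ℂ) (G : ℕ → ℂ) (hG : ∀ a, N < a → G a = 0)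
    (hw : ∀ a, U < a → w a = 0) :
    ∑ a ∈ Icc 1 N, w a * G a = ∑ a ∈ Icc 1 U, w a * G a := by
  have h1 : ∑ a ∈ Icc 1 N, w a * G a = ∑ a ∈ Icc 1 (max U N), w a * G a := by
    apply sum_subset (Icc_subset_Icc_right (le_max_right _ _))
    intro a ha ha'
    rw [mem_Icc] at ha ha'
    rw [hG a (by omega), mul_zero]
  have h2 : ∑ a ∈ Icc 1 U, w a * G a = ∑ a ∈ Icc 1 (max U N), w a * G a := by
    apply sum_subset (Icc_subset_Icc_right (le_max_left _ _))
    intro a ha ha'
    rw [mem_Icc] at ha ha'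
    rw [hw a (by omega), zero_mul]
  rw [h1, h2]

theorem stVaughan : Pool.Agent.Helper6.SW.StVaughan := by
  intro U hU
  let L : ArithmeticFunction ℝ := ArithmeticFunction.vonMangoldt
  let v : ArithmeticFunction ℝ := tr U muR * tr U L
  let u : ArithmeticFunction ℝ := (L - tr U L) * zeR
  have hLnn : ∀ n, 0 ≤ L n := fun n => ArithmeticFunction.vonMangoldt_nonneg
  have hLz : L * zeR = ArithmeticFunction.log := ArithmeticFunction.vonMangoldt_mul_zeta
  have hdiv : ∀ c : ℕ, ∑ x ∈ c.divisorsAntidiagonal, L x.2 = Real.log c := by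
    intro c
    have h1 := ArithmeticFunction.vonMangoldt_sum (n := c)
    rw [Nat.sum_divisorsAntidiagonal' (f := fun _ j => L j)]
    exact h1
  have hu_apply : ∀ l, u l = ∑ i ∈ l.divisors, (if i ≤ U then 0 else L i) := by
    intro l
    have h1 : u l = ∑ i ∈ l.divisors, (L - tr U L) i :=
      ArithmeticFunction.coe_mul_zeta_apply
    rw [h1]
    refine sum_congr rfl fun i _ => ?_
    have : (L - tr U L) i = L i - tr U L i := by
      rw [sub_eq_add_neg, ArithmeticFunction.add_apply, ArithmeticFunction.neg_apply,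
        ← sub_eq_add_neg]
    rw [this, tr_apply]
    split_ifs <;> simp
  have hv : ∀ c : ℕ, |v c| ≤ Real.log c := by
    intro c
    show |(tr U muR * tr U L) c| ≤ Real.log c
    rw [ArithmeticFunction.mul_apply, ← hdiv c]
    refine (abs_sum_le_sum_abs _ _).trans (sum_le_sum fun x _ => ?_)
    rw [abs_mul]
    have h1 : |tr U muR x.1| ≤ 1 := by
      rw [tr_apply]
      split_ifs
      · rw [muR_apply]
        exact_mod_cast ArithmeticFunction.abs_moebius_le_one
      · simp
    have h2 : |tr U L x.2| ≤ L x.2 := by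
      rw [tr_apply]
      split_ifs
      · rw [abs_of_nonneg (hLnn _)]
      · rw [abs_zero]; exact hLnn _
    calc |tr U muR x.1| * |tr U L x.2| ≤ 1 * L x.2 :=
          mul_le_mul h1 h2 (abs_nonneg _) zero_le_one
      _ = L x.2 := one_mul _
  have hunn : ∀ l, 0 ≤ u l := by
    intro l
    rw [hu_apply]
    refine sum_nonneg fun i _ => ?_
    split_ifs
    · exact le_rfl
    · exact hLnn _
  have hu : ∀ l : ℕ, |u l| ≤ Real.log l := by
    intro l
    rw [abs_of_nonneg (hunn l), hu_apply, ← ArithmeticFunction.vonMangoldt_sum (n := l)]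
    refine sum_le_sum fun i _ => ?_
    split_ifs
    · exact hLnn _
    · exact le_rfl
  have hu0 : ∀ l, l ≤ U → u l = 0 := by
    intro l hl
    rw [hu_apply]
    refine sum_eq_zero fun i hi => ?_
    rw [if_pos ((Nat.divisor_le hi).trans hl)]
  have hv0 : ∀ c, U ^ 2 < c → v c = 0 := by
    intro c hc
    show (tr U muR * tr U L) c = 0
    rw [ArithmeticFunction.mul_apply]
    refine sum_eq_zero fun x hx => ?_
    rw [Nat.mem_divisorsAntidiagonal] at hx
    rw [tr_apply, tr_apply]
    by_cases h1 : x.1 ≤ U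
    · by_cases h2 : x.2 ≤ U
      · exfalso
        have := Nat.mul_le_mul h1 h2
        nlinarith [hx.1]
      · rw [if_neg h2, mul_zero]
    · rw [if_neg h1, zero_mul]
  have hid : L = tr U L + tr U muR * ArithmeticFunction.log - v * zeR + (muR - tr U muR) * u := by
    have h1 : (muR - tr U muR) * u = (muR - tr U muR) * ((L - tr U L) * zeR) := rfl
    have h2 : v * zeR = tr U muR * tr U L * zeR := rfl
    rw [h1, h2, ← hLz]
    linear_combination (- (L - tr U L)) * muR_mul_zeR
  refine ⟨v, u, hv, hu, ?_⟩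
  intro N h hh
  have e0 : ∀ n, ((L n : ℝ) : ℂ) * h n = ((tr U L n : ℝ) : ℂ) * h n +
      (((tr U muR * ArithmeticFunction.log) n : ℝ) : ℂ) * h n - (((v * zeR) n : ℝ) : ℂ) * h n +
      ((((muR - tr U muR) * u) n : ℝ) : ℂ) * h n := by
    intro n
    have : L n = tr U L n + (tr U muR * ArithmeticFunction.log) n - (v * zeR) n +
        ((muR - tr U muR) * u) n := by
      conv_lhs => rw [hid]
      rw [ArithmeticFunction.add_apply, sub_eq_add_neg, ArithmeticFunction.add_apply,
        ArithmeticFunction.add_apply, ArithmeticFunction.neg_apply, ← sub_eq_add_neg]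
    rw [this]
    push_cast
    ring
  have e1 : ∑ n ∈ Icc 1 N, ((tr U L n : ℝ) : ℂ) * h n = 0 := by
    refine sum_eq_zero fun n _ => ?_
    rw [tr_apply]
    by_cases hn : n ≤ U
    · rw [hh n hn, mul_zero]
    · rw [if_neg hn]; simp
  have e2 : ∑ n ∈ Icc 1 N, (((tr U muR * ArithmeticFunction.log) n : ℝ) : ℂ) * h n =
      ∑ b ∈ Icc 1 U, ((ArithmeticFunction.moebius b : ℤ) : ℂ) *
          ∑ m ∈ Icc 1 (N / b), ((Real.log m : ℝ) : ℂ) * h (b * m) := by
    rw [sum_conv, sum_cut U N (fun a => ((tr U muR a : ℝ) : ℂ))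
      (fun a => ∑ m ∈ Icc 1 (N / a), ((ArithmeticFunction.log m : ℝ) : ℂ) * h (a * m))]
    · refine sum_congr rfl fun b hb => ?_
      rw [mem_Icc] at hb
      have : ((tr U muR b : ℝ) : ℂ) = ((ArithmeticFunction.moebius b : ℤ) : ℂ) := by
        rw [tr_apply, if_pos hb.2, muR_apply]; push_cast; rfl
      rw [this]
      rfl
    · intro a ha
      rw [Nat.div_eq_of_lt ha]; simp
    · intro a ha
      show ((tr U muR a : ℝ) : ℂ) = 0
      rw [tr_apply, if_neg (by omega)]; simp
  have e3 : ∑ n ∈ Icc 1 N, (((v * zeR) n : ℝ) : ℂ) * h n =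
      ∑ c ∈ Icc 1 (U ^ 2), ((v c : ℝ) : ℂ) * ∑ m ∈ Icc 1 (N / c), h (c * m) := by
    rw [sum_conv, sum_cut (U ^ 2) N (fun a => ((v a : ℝ) : ℂ))
      (fun a => ∑ m ∈ Icc 1 (N / a), ((zeR m : ℝ) : ℂ) * h (a * m))]
    · refine sum_congr rfl fun c _ => ?_
      congr 1
      refine sum_congr rfl fun m hm => ?_
      rw [mem_Icc] at hm
      rw [zeR_apply hm.1]; simp
    · intro a ha
      rw [Nat.div_eq_of_lt ha]; simp
    · intro a ha
      show ((v a : ℝ) : ℂ) = 0
      rw [hv0 a ha]; simp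
  have e4 : ∑ n ∈ Icc 1 N, ((((muR - tr U muR) * u) n : ℝ) : ℂ) * h n =
      ∑ a ∈ Ioc U N, ∑ l ∈ Ioc U (N / a),
          ((ArithmeticFunction.moebius a : ℤ) : ℂ) * ((u l : ℝ) : ℂ) * h (a * l) := by
    rw [sum_conv]
    have hsub : Ioc U N ⊆ Icc 1 N := by
      intro a ha
      rw [mem_Ioc] at ha
      rw [mem_Icc]; omega
    have hval : ∀ a, (muR - tr U muR) a = if a ≤ U then 0 else muR a := by
      intro a
      have : (muR - tr U muR) a = muR a - tr U muR a := by
        rw [sub_eq_add_neg, ArithmeticFunction.add_apply, ArithmeticFunction.neg_apply,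
          ← sub_eq_add_neg]
      rw [this, tr_apply]
      split_ifs <;> simp
    rw [← sum_subset hsub]
    · refine sum_congr rfl fun a ha => ?_
      rw [mem_Ioc] at ha
      rw [hval, if_neg (by omega), mul_sum]
      have hsub2 : Ioc U (N / a) ⊆ Icc 1 (N / a) := by
        intro l hl
        rw [mem_Ioc] at hl
        rw [mem_Icc]; omega
      rw [← sum_subset hsub2]
      · refine sum_congr rfl fun l _ => ?_
        rw [muR_apply]; push_cast; ring
      · intro l hl hl'
        rw [mem_Icc] at hl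
        rw [mem_Ioc] at hl'
        rw [hu0 l (by omega)]; simp
    · intro a ha ha'
      rw [mem_Icc] at ha
      rw [mem_Ioc] at ha'
      rw [hval, if_pos (by omega)]; simp
  calc ∑ n ∈ Icc 1 N, ((ArithmeticFunction.vonMangoldt n : ℝ) : ℂ) * h n
      = ∑ n ∈ Icc 1 N, ((L n : ℝ) : ℂ) * h n := rfl
    _ = _ := by
      rw [sum_congr rfl fun n _ => e0 n, sum_add_distrib, sum_sub_distrib, sum_add_distrib,
        e1, e2, e3, e4, zero_add]

end Pool.Agent.Helper13.SW
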